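import Pool.Agent.Lib.HV.Cplx

set_option autoImplicit false

namespace Pool.Agent.Results.MP_57bc98_nt.DegreeThreeCubic

/-- The Weil sum `W_{L,s}(a)` of a finite field of characteristic two. -/
noncomputable def weil (L : Type) [Field L] [Fintype L] [Algebra (ZMod 2) L] (s : ℕ) (a : L) : ℂ :=
  ∑ x : L, Complex.exp (2 * Real.pi * Complex.I *
    ((Algebra.trace (ZMod 2) L (x ^ s - a * x)).val : ℂ) / (2 : ℂ))

/-- Let `L` be the field with `r ^ 3` elements, `r = 2 ^ m`, and let `s` be `r + 3` or `r ^ 2 + 3`,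
prime to `r ^ 3 - 1`. On the subfield `K` with `r` elements the Weil sum is `(-1) ^ m r ^ 2` at
`a = 1` and zero everywhere else. In particular `s` is singular as soon as `r > 2`. -/
theorem result (m : ℕ) (hm : 1 ≤ m) (L : Type) [Field L] [Fintype L] [Algebra (ZMod 2) L]
    (hL : Fintype.card L = 2 ^ (3 * m)) (s : ℕ) (hs : s = 2 ^ m + 3 ∨ s = 2 ^ (2 * m) + 3)
    (hcop : Nat.Coprime s (Fintype.card L - 1)) :
    weil L s 1 = (-1) ^ m * 2 ^ (2 * m) ∧
    (∀ a : L, a ^ 2 ^ m = a → a ≠ 1 → weil L s a = 0) ∧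
    (2 ≤ m → ∃ a : L, a ≠ 0 ∧ weil L s a = 0) := by
  classical
  have hchar : CharP L 2 := charP_of_injective_algebraMap (algebraMap (ZMod 2) L).injective 2
  have h1 : ∀ a : L, a ^ 2 ^ m = a →
      weil L s a = if a = 1 then (-1) ^ m * 2 ^ (2 * m) else 0 := by
    intro a ha
    have h := Lib.HV.sum_exp s a
    rw [Lib.HV.main_A m hm hL s hs hcop a ha] at h
    rw [weil, h]
    split_ifs <;> push_cast <;> rfl
  refine ⟨by rw [h1 1 (one_pow _), if_pos rfl], fun a ha ha1 => by rw [h1 a ha, if_neg ha1],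
    fun hm2 => ?_⟩
  obtain ⟨a, h0, h2, h3⟩ := Lib.HV.exists_ne m hm2 hL
  refine ⟨a, h0, ?_⟩
  rw [h1 a h3, if_neg h2]

end Pool.Agent.Results.MP_57bc98_nt.DegreeThreeCubic
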