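import Pool.Agent.Lib.HV.Cplx

set_option autoImplicit false

namespace Pool.Agent.Results.MP_57bc98_nt.DegreeThreeKloosterman

/-- The canonical additive character of a finite field of characteristic two. -/
noncomputable def mu (L : Type) [Field L] [Fintype L] [Algebra (ZMod 2) L] (x : L) : ℂ :=
  Complex.exp (2 * Real.pi * Complex.I * ((Algebra.trace (ZMod 2) L x).val : ℂ) / (2 : ℂ))

/-- The Weil sum `W_{L,s}(a)`. -/
noncomputable def weil (L : Type) [Field L] [Fintype L] [Algebra (ZMod 2) L] (s : ℕ) (a : L) : ℂ :=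
  ∑ x : L, mu L (x ^ s - a * x)

open Classical in
/-- The Kloosterman sum over the nonzero elements `g` of the subfield with `2 ^ m` elements. For a
field `L` of odd degree over that subfield the character `mu` of `L` restricts to the canonical
additive character of the subfield. -/
noncomputable def kloosterman (L : Type) [Field L] [Fintype L] [Algebra (ZMod 2) L] (m : ℕ)
    (c : L) : ℂ :=
  ∑ g ∈ Finset.univ.filter (fun g : L => g ^ 2 ^ m = g ∧ g ≠ 0), mu L (g + c / g)

/-- Let `L` be the field with `r ^ 3` elements, `r = 2 ^ m`, `K` its subfield with `r` elements, and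
let `s` be `r ^ 2 + 2 r - 1` or `2 r ^ 2 + r - 1`, prime to `r ^ 3 - 1`. For `a` in `K`, `a ≠ 1`,
the Weil sum is `(-1) ^ m r (1 - mu a)` times the Kloosterman sum of `K` at `(1 + a) ^ 3`, so it
vanishes when `a` has trace zero. In particular `s` is singular as soon as `r > 4`. -/
theorem result (m : ℕ) (hm : 1 ≤ m) (L : Type) [Field L] [Fintype L] [Algebra (ZMod 2) L]
    (hL : Fintype.card L = 2 ^ (3 * m)) (s : ℕ)
    (hs : s + 1 = 2 ^ (2 * m) + 2 ^ (m + 1) ∨ s + 1 = 2 ^ (2 * m + 1) + 2 ^ m)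
    (hcop : Nat.Coprime s (Fintype.card L - 1)) :
    (∀ a : L, a ^ 2 ^ m = a → a ≠ 1 →
      weil L s a = (-1) ^ m * 2 ^ m * (1 - mu L a) * kloosterman L m ((1 + a) ^ 3)) ∧
    (3 ≤ m → ∃ a : L, a ≠ 0 ∧ weil L s a = 0) := by
  classical
  have hchar : CharP L 2 := charP_of_injective_algebraMap (algebraMap (ZMod 2) L).injective 2
  have h1 : ∀ a : L, a ^ 2 ^ m = a → a ≠ 1 →
      weil L s a = (-1) ^ m * 2 ^ m * (1 - mu L a) * kloosterman L m ((1 + a) ^ 3) := by
    intro a ha ha1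
    have h := Lib.HV.sum_exp s a
    rw [Lib.HV.main_B m hm hL s hs hcop a ha ha1] at h
    have h2 : weil L s a = ∑ x : L, Complex.exp (2 * Real.pi * Complex.I *
        (((Algebra.trace (ZMod 2) L (x ^ s - a * x)).val : ℕ) : ℂ) / (2 : ℂ)) := rfl
    have h3 : kloosterman L m ((1 + a) ^ 3)
        = ((∑ g ∈ Finset.univ.filter (fun g : L => g ^ 2 ^ m = g ∧ g ≠ 0),
            Lib.HV.sgn L (g + (1 + a) ^ 3 / g) : ℤ) : ℂ) := by
      rw [kloosterman]
      push_cast
      refine Finset.sum_congr ?_ (fun g _ => ?_)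
      · ext g; simp
      · exact Lib.HV.exp_trace _
    have h4 : mu L a = ((Lib.HV.sgn L a : ℤ) : ℂ) := Lib.HV.exp_trace a
    rw [h2, h, h3, h4]
    push_cast
    ring
  refine ⟨h1, fun hm2 => ?_⟩
  obtain ⟨a, h0, h2, h3, h4⟩ := Lib.HV.exists_ne_tr m hm2 hL
  refine ⟨a, h0, ?_⟩
  have h5 : mu L a = ((Lib.HV.sgn L a : ℤ) : ℂ) := Lib.HV.exp_trace a
  rw [h1 a h3 h2, h5, h4]
  simp

end Pool.Agent.Results.MP_57bc98_nt.DegreeThreeKloosterman
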