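import Pool.Agent.Lib.HQ.Main

set_option autoImplicit false

namespace Pool.Agent.Results.MP_57bc98_nt.DegreeThreeQuartic

/-- The Weil sum `W_{L,s}(a)` of a finite field of characteristic `p`. -/
noncomputable def weil (p : ℕ) (L : Type) [Field L] [Fintype L] [Algebra (ZMod p) L] (s : ℕ)
    (a : L) : ℂ :=
  ∑ x : L, Complex.exp (2 * Real.pi * Complex.I *
    ((Algebra.trace (ZMod p) L (x ^ s - a * x)).val : ℂ) / (p : ℂ))

/-- Let `r = p ^ m` be an odd prime power and `L` the field with `r ^ 3` elements. Let `s` be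
`2 r - 1` with `r` congruent to `1`, `3` or `6` modulo `7`, or `2 r ^ 2 - 1` with `r` congruent to
`1`, `5` or `6` modulo `7`. Then `s` is prime to `r ^ 3 - 1`, congruent to `1` modulo `p - 1`, and
the Weil sum vanishes at `-7`, which is not zero in `L`. -/
theorem result (p : ℕ) (hp : p.Prime) (hp2 : p ≠ 2) (m : ℕ) (hm : 1 ≤ m) (L : Type) [Field L]
    [Fintype L] [CharP L p] [Algebra (ZMod p) L] (hL : Fintype.card L = p ^ (3 * m)) (s : ℕ)
    (hs : (s = 2 * p ^ m - 1 ∧ (p ^ m % 7 = 1 ∨ p ^ m % 7 = 3 ∨ p ^ m % 7 = 6)) ∨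
      (s = 2 * p ^ (2 * m) - 1 ∧ (p ^ m % 7 = 1 ∨ p ^ m % 7 = 5 ∨ p ^ m % 7 = 6))) :
    Nat.Coprime s (Fintype.card L - 1) ∧ s ≡ 1 [MOD p - 1] ∧ (-7 : L) ≠ 0 ∧
      weil p L s (-7) = 0 := by
  have hfact : Fact p.Prime := ⟨hp⟩
  have hp7 : p ≠ 7 := by
    rintro rfl
    have : 7 ^ m % 7 = 0 := Nat.mod_eq_zero_of_dvd (dvd_pow_self 7 (by omega))
    omega
  obtain ⟨e, he, h7, hk, hr⟩ : ∃ e, (e = m ∨ e = 2 * m) ∧
      (p ^ e % 7 = 1 ∨ p ^ e % 7 = 6 ∨ p ^ e % 7 = 3 ∨ p ^ e % 7 = 4) ∧ s + 1 = 2 * p ^ e ∧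
      ¬ (7 ∣ s ∧ 7 ∣ p ^ (3 * m) - 1) := by
    have h1 : ∀ j, 1 ≤ p ^ j := fun j => Nat.one_le_pow _ _ hp.pos
    have h3 : p ^ (3 * m) = (p ^ m) ^ 3 := by rw [mul_comm, pow_mul]
    have h2 : p ^ (2 * m) = (p ^ m) ^ 2 := by rw [mul_comm, pow_mul]
    rcases hs with ⟨rfl, h⟩ | ⟨rfl, h⟩
    · refine ⟨m, Or.inl rfl, by omega, ?_, ?_⟩
      · have := h1 m; omega
      · rintro ⟨ha, -⟩
        have := h1 m
        omega
    · refine ⟨2 * m, Or.inr rfl, ?_, ?_, ?_⟩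
      · rw [h2, Nat.pow_mod]
        rcases h with h | h | h <;> rw [h] <;> norm_num
      · have := h1 (2 * m); omega
      · rintro ⟨ha, hb⟩
        have h5 := h1 (2 * m)
        have h6 := h1 (3 * m)
        have h8 : p ^ (3 * m) % 7 = 1 := by omega
        have h9 : (2 * p ^ (2 * m)) % 7 = 1 := by omega
        rw [h3, Nat.pow_mod] at h8
        rw [h2, Nat.mul_mod, Nat.pow_mod] at h9
        rcases h with h | h | h <;> rw [h] at h8 h9 <;>
          first | omega | (norm_num at h8; done) | (norm_num at h9; done)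
  have hq1 : 1 ≤ p ^ (3 * m) := Nat.one_le_pow _ _ hp.pos
  have hR1 : 1 ≤ p ^ e := Nat.one_le_pow _ _ hp.pos
  refine ⟨?_, ?_, ?_, ?_⟩
  · rw [hL]
    have hd1 : (Nat.gcd s (p ^ (3 * m) - 1) : ℤ) ∣ (s : ℤ) :=
      Int.natCast_dvd_natCast.2 (Nat.gcd_dvd_left _ _)
    have hd2 : (Nat.gcd s (p ^ (3 * m) - 1) : ℤ) ∣ ((p : ℤ) ^ (3 * m) - 1) := by
      have := Int.natCast_dvd_natCast.2 (Nat.gcd_dvd_right s (p ^ (3 * m) - 1))
      rw [Nat.cast_sub hq1] at this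
      push_cast at this
      exact this
    have hd3 : ((p : ℤ) ^ (3 * m) - 1) ∣ (((p : ℤ) ^ e) ^ 3 - 1) := by
      rcases he with rfl | rfl
      · rw [← pow_mul, mul_comm e 3]
      · have : ((p : ℤ) ^ (2 * m)) ^ 3 - 1 = ((p : ℤ) ^ (3 * m) - 1) * ((p : ℤ) ^ (3 * m) + 1) := by
          ring
        rw [this]
        exact dvd_mul_right _ _
    have hsz : (s : ℤ) = 2 * (p : ℤ) ^ e - 1 := by
      have : ((s + 1 : ℕ) : ℤ) = ((2 * p ^ e : ℕ) : ℤ) := by rw [hk]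
      push_cast at this
      linarith
    have hd7 : (Nat.gcd s (p ^ (3 * m) - 1) : ℤ) ∣ 7 := by
      have h1 := (hd2.trans hd3).mul_left 8
      have h2 := hd1.mul_right (4 * ((p : ℤ) ^ e) ^ 2 + 2 * (p : ℤ) ^ e + 1)
      have h3 := dvd_sub h2 h1
      rw [hsz] at h3
      have h4 : (2 * (p : ℤ) ^ e - 1) * (4 * ((p : ℤ) ^ e) ^ 2 + 2 * (p : ℤ) ^ e + 1)
          - 8 * (((p : ℤ) ^ e) ^ 3 - 1) = 7 := by ring
      rwa [h4] at h3
    have hd7' : Nat.gcd s (p ^ (3 * m) - 1) ∣ 7 := by exact_mod_cast hd7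
    rcases (Nat.dvd_prime (by norm_num)).1 hd7' with h | h
    · exact h
    · exact absurd ⟨h ▸ Nat.gcd_dvd_left s (p ^ (3 * m) - 1),
        h ▸ Nat.gcd_dvd_right s (p ^ (3 * m) - 1)⟩ hr
  · have h1 : p ^ e ≡ 1 [MOD p - 1] := by
      have h2 : p ≡ 1 [MOD p - 1] := by
        have : p = (p - 1) + 1 := by have := hp.pos; omega
        conv_lhs => rw [this]
        simp [Nat.ModEq]
      have h3 := h2.pow e
      rwa [one_pow] at h3
    have h4 : s + 1 ≡ 1 + 1 [MOD p - 1] := by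
      rw [hk, two_mul]
      exact h1.add h1
    exact Nat.ModEq.add_right_cancel' 1 h4
  · have : ((7 : ℕ) : L) ≠ 0 := by
      rw [Ne, CharP.cast_eq_zero_iff L p]
      intro h
      exact hp7 ((Nat.prime_dvd_prime_iff_eq hp (by norm_num)).1 h)
    have h7' : (7 : L) ≠ 0 := by exact_mod_cast this
    exact neg_ne_zero.2 h7'
  · rw [weil, ← Lib.HQ.main p hp2 hp7 m hm L hL e he h7 s hk]
    exact Finset.sum_congr rfl (fun x _ => (Lib.HQ.psi_apply p L _).symm)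

end Pool.Agent.Results.MP_57bc98_nt.DegreeThreeQuartic
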