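import Pool.Agent.Lib.HelQ.Main

set_option autoImplicit false

namespace Pool.Agent.Results.MP_57bc98_nt.TwoValuedQuadratic

/-- The Weil sum `W_{L,s}(a)` of a finite field of characteristic `p`. -/
noncomputable def weil (p : ℕ) (L : Type) [Field L] [Fintype L] [Algebra (ZMod p) L] (s : ℕ)
    (a : L) : ℂ :=
  ∑ x : L, Complex.exp (2 * Real.pi * Complex.I *
    ((Algebra.trace (ZMod p) L (x ^ s - a * x)).val : ℂ) / (p : ℂ))

/-- Let `L` be a finite field of characteristic `p` with more than two elements, and let `s` be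
prime to `|L| - 1` and congruent to `1` modulo `p - 1`. If for some number `S` the product
`W(a) (W(a) - S)` takes at most two values `c`, `d` for `a` in `L`, `a ≠ 0`, then `W(a) = 0` for
some `a ≠ 0`. The hypothesis holds when `W` takes at most three values, when `|W|` takes at most
two values, and when `W` takes four values with `v1 + v2 = v3 + v4`. -/
theorem result (p : ℕ) (hp : p.Prime) (L : Type) [Field L] [Fintype L] [CharP L p]
    [Algebra (ZMod p) L] (s : ℕ) (hq : 2 < Fintype.card L) (h1 : s ≡ 1 [MOD p - 1])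
    (hs : Nat.Coprime s (Fintype.card L - 1)) (S c d : ℂ)
    (hQ : ∀ a : L, a ≠ 0 → weil p L s a * (weil p L s a - S) = c ∨
      weil p L s a * (weil p L s a - S) = d) :
    ∃ a : L, a ≠ 0 ∧ weil p L s a = 0 := by
  have hfact : Fact p.Prime := ⟨hp⟩
  have hW : ∀ a : L, weil p L s a = Lib.HelQ.W p L s a := fun a =>
    Finset.sum_congr rfl fun x _ => (Lib.HQ.psi_apply p L _).symm
  simp only [hW] at hQ ⊢
  exact Lib.HelQ.vanish p L s hq hs h1 S c d hQ

end Pool.Agent.Results.MP_57bc98_nt.TwoValuedQuadratic
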